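import Pool.Agent.Work.MP_db9399_oxa_helper75.Glue
import Pool.Agent.Work.MP_db9399_sg_helper79.HOST

/-!
# MP_db9399, OXA: proof (helper75)
-/

set_option autoImplicit false
set_option linter.unusedSectionVars false

namespace Pool.Agent.Work.MP_db9399_oxa.helper75

open Finset Classical
open Pool.Agent.Work.MP_db9399_all (nb)
open Pool.Agent.Work.MP_db9399_cg (cdg)
open Pool.Agent.Work.MP_db9399_sg
open Pool.Agent.Work.MP_db9399_ox
open Pool.Agent.Work.MP_db9399_clj.helper75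
open Pool.Agent.Work.MP_db9399_xc.helper38 (Clx lgt)

universe u

/-- `Cls` from the classes -/
theorem cls_of {W B I I' J V : Type u} [Fintype W] [Fintype B] [Fintype I] [Fintype I']
    [Fintype J] [Fintype V] {ι : W ↪ V} {H : J → SimpleGraph W} {Gh : J → SimpleGraph V}
    {bl : W → Option B} {A Ex' : J → Finset V} {nd0 : J → W → Option (I × Bool)}
    {nd : J → V → Option (I × Bool)} {pr : I → I'} {d : ℕ} {D r : J → ℕ}
    {a MS g δ β C C' ρ0 c0 : ℝ} {e : J → ℝ}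
    (hw : ∀ j, Wld ((H j).map ι) (Gh j) ((OO bl).map ι) (A j) (Ex' j) (nd j) (D j) MS g δ β (1 / 4)
      C' ρ0)
    (hH : ∀ j, Hst ι (H j) bl (nd0 j) (Gh j) (nd j) (A j) (D j) (mG nd0 D j) c0 (e j))
    (hone : ∀ j j' v, (∀ w, v ≠ ι w) → nd j v ≠ none → nd j' v ≠ none → j = j')
    (hdis : ∀ j j' v w, j ≠ j' → (H j).Adj v w → ¬ (H j').Adj v w)
    (hlgt8 : ∀ j v, nd0 j v ≠ none → 8 * (nb (H j) v).card ≤ D j)
    (hbal : ∀ j i, |sdg (H j) (nd0 j) i| ≤ D j)
    (hprc : ∀ i', (univ.filter fun i => pr i = i').card ≤ 2)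
    (hDd : ∀ j, D j ≤ d ∧ (d : ℝ) ≤ C * D j) (hJc : (Fintype.card J : ℝ) ≤ C)
    (hrr : ∀ j, Odd (r j) ∧ 2 * (D j : ℝ) ^ (1 - a) ≤ r j ∧
      (r j : ℝ) + 2 ≤ (D j : ℝ) ^ (1 - a / 3))
    (hrd : ∀ j, (d : ℝ) ^ (1 - a) ≤ r j) :
    Cls (fun j => (H j).map ι) Gh ((OO bl).map ι) (univ.map ι) A Ex' nd pr d D r a MS g δ β
      (1 / 4) C C' ρ0 := by
  have hW : ∀ v, v ∈ (univ : Finset W).map ι ↔ ∃ w, v = ι w := by
    intro v
    rw [mem_map]
    constructor
    · rintro ⟨w, _, rfl⟩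
      exact ⟨w, rfl⟩
    · rintro ⟨w, rfl⟩
      exact ⟨w, mem_univ _, rfl⟩
  refine ⟨hw, ?_, ?_, ?_, ?_, ?_, ?_, ?_, ?_, hprc, hDd, hJc, hrr, hrd⟩
  · intro v hv
    obtain ⟨w, _, rfl⟩ := mem_map.1 hv
    exact (hW _).2 ⟨w, rfl⟩
  · intro j v w h
    rw [SimpleGraph.map_adj] at h
    obtain ⟨v', _, _, rfl, _⟩ := h
    exact (hW _).2 ⟨v', rfl⟩
  · intro j v w h hn
    by_contra hcon
    rw [not_or, not_not, not_not, hW, hW] at hcon
    obtain ⟨⟨v', rfl⟩, w', rfl⟩ := hcon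
    apply hn
    rw [SimpleGraph.map_adj]
    exact ⟨v', w', ((hH j).real v' w').1 h, rfl, rfl⟩
  · intro j j' v hv h1 h2
    rw [hW, not_exists] at hv
    have key : ∀ j, v ∈ A j → nd j v ≠ none := by
      intro j hj
      rcases ((hH j).mA v).1 hj with h | ⟨w, hw', _⟩
      · exact h
      · exact absurd hw' (hv w)
    exact hone j j' v hv (key j h1) (key j' h2)
  · intro j j' v w hjj h h'
    rw [SimpleGraph.map_adj] at h h'
    obtain ⟨v', w', h1, e1, e2⟩ := h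
    obtain ⟨v'', w'', h2, e3, e4⟩ := h'
    rw [← e3] at e1
    rw [← e4] at e2
    rw [ι.injective e1, ι.injective e2] at h1
    exact hdis j j' _ _ hjj h1 h2
  · intro j v hv
    by_cases hr : ∃ w, v = ι w
    · obtain ⟨w, rfl⟩ := hr
      rw [card_nb_map]
      rw [(hH j).ndr] at hv
      exact hlgt8 j w hv
    · rw [nb_map_out _ _ (fun u hu => hr ⟨u, hu⟩), card_empty]
      omega
  · intro j i s s'
    rw [card_nsd_real (hH j).ndr, (hH j).sz, mG]
    have : (nsd (nd0 j) i s).card ≤ max (nsd (nd0 j) i false).card (nsd (nd0 j) i true).card := by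
      cases s
      · exact le_max_left _ _
      · exact le_max_right _ _
    omega
  · intro j i
    rw [sdg_map (hH j).ndr]
    exact hbal j i

theorem stmt_OXA : Stmt_OXA.{u} := by
  intro MS δ C CQ c hMS hδ hC hCQ hc hc1
  have hC0 : 0 < C := by linarith
  obtain ⟨c0, dh, hc0, hHOST⟩ := MP_db9399_sg.helper79.stmt_HOST.{u} (20 + 8 * CQ) (by linarith)
  obtain ⟨κ, hκ, hκ1, hCLJ⟩ := stmt_CLJ.{u} MS δ C 1 c c0 hMS hδ hC zero_le_one hc hc1 hc0
  refine ⟨κ, ⌈C * (max dh 24 : ℕ)⌉₊, hκ, hκ1, ?_⟩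
  intro W B I I' J _ _ _ _ _ G Bk H bl op nd0 bo pr Ex d D r a β ρ0 t g t1 t2 t3 t4 t5 t6 ζ aC gC Cs
    hd hβ hρ0 hρ1 hζ ha haκ hgC hgC1 htκ hg hgκ hS hT hCl hQ hrr hrd
  have hDj : ∀ j, max dh 24 ≤ D j := by
    intro j
    have h1 := (hS.Dd j).2
    have h2 : C * ((max dh 24 : ℕ) : ℝ) ≤ C * D j := by
      refine le_trans ?_ h1
      exact (Nat.le_ceil _).trans (by exact_mod_cast hd)
    exact_mod_cast le_of_mul_le_mul_left h2 hC0
  have hDh : ∀ j, dh ≤ D j := fun j => (le_max_left _ _).trans (hDj j)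
  have hD24 : ∀ j, 24 ≤ D j := fun j => (le_max_right _ _).trans (hDj j)
  have hndb : ∀ j v, nd0 j v ≠ none → bl v ≠ none := by
    intro j v h h1
    obtain ⟨p, hp⟩ := Option.ne_none_iff_exists'.1 h
    exact nd_notO (hS.blx j) hp (mem_OO.2 h1)
  have hbal : ∀ j i, |sdg (H j) (nd0 j) i| ≤ D j := by
    intro j i
    refine (hS.bal j i).trans ?_
    have : (0 : ℝ) ≤ D j := Nat.cast_nonneg _
    nlinarith
  have hint : ∀ j i, ((∑ v ∈ nsd (nd0 j) i false, ((nb (H j) v).card : ℤ) -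
      ∑ v ∈ nsd (nd0 j) i true, ((nb (H j) v).card : ℤ) : ℤ) : ℝ) = sdg (H j) (nd0 j) i := by
    intro j i
    rw [sdg]
    push_cast
    rfl
  have hmx : ∀ j i s, (nsd (nd0 j) i s).card ≤
      max (nsd (nd0 j) i false).card (nsd (nd0 j) i true).card := by
    intro j i s
    cases s
    · exact le_max_left _ _
    · exact le_max_right _ _
  have hm : ∀ j i, (mG nd0 D j i : ℝ) ≤ (20 + 8 * CQ) * D j := by
    intro j i
    have h1 : ((max (nsd (nd0 j) i false).card (nsd (nd0 j) i true).card : ℕ) : ℝ) ≤ CQ * D j := by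
      rcases max_choice (nsd (nd0 j) i false).card (nsd (nd0 j) i true).card with h | h
      · rw [h]
        exact hS.szn j i false
      · rw [h]
        exact hS.szn j i true
    rw [mG, Nat.cast_add, Nat.cast_mul, Nat.cast_mul]
    push_cast at h1 ⊢
    linarith
  have hhost := fun j => hHOST (H j) (nd0 j) (D j) (mG nd0 D j) (hDh j)
    (fun v hv => hS.lgt8 j v (hndb j v hv))
    (fun i s => by
      have := hmx j i s
      rw [mG]
      omega)
    (fun i => by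
      rw [mG]
      omega) (hm j)
    (fun i => by
      have h1 := hbal j i
      rw [← hint j i] at h1
      exact_mod_cast h1)
  choose X hX Gh1 nd1 h1 h2 h3 h4 h5 h6 h7 h8 h9 using hhost
  set A : J → Finset (W ⊕ (Σ j, X j)) := fun j =>
    univ.filter fun v => ext (em X j) (nd1 j) v ≠ none ∨ ∃ w, v = Sum.inl w ∧ bl w = none with hA
  have hHst : ∀ j, Hst Function.Embedding.inl (H j) bl (nd0 j) ((Gh1 j).map (em X j))
      (ext (em X j) (nd1 j)) (A j) (D j) (mG nd0 D j) c0 (ρ0 / 2 * D j) := by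
    intro j
    refine hst_glue X j (H j) bl (nd0 j) (Gh1 j) (nd1 j) (D j) (mG nd0 D j) c0 _ (A j) (h1 j) (h2 j)
      (h4 j) (h5 j) (h6 j) (h7 j) ?_ (h9 j) ?_
    · intro i
      rw [h8 j i]
      have e1 : (((∑ v ∈ nsd (nd0 j) i false, ((nb (H j) v).card : ℤ) -
          ∑ v ∈ nsd (nd0 j) i true, ((nb (H j) v).card : ℤ)).natAbs : ℕ) : ℝ) =
          |sdg (H j) (nd0 j) i| := by
        rw [← hint j i, Nat.cast_natAbs, Int.cast_abs]
      rw [e1]
      exact hS.bal j i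
    · intro v
      rw [hA, mem_filter]
      exact ⟨fun h => h.2, fun h => ⟨mem_univ _, h⟩⟩
  have hgdx : ∀ j, Gdx Sum.inl (H j) bl (bo j) ((Gh1 j).map (em X j)) (ext (em X j) (nd1 j)) (A j)
      (D j) 1 c0 := by
    intro j
    refine gdx_of (hS.blx j) (hHst j) (hS.dex j) (hS.lgt8 j) (fun i => ?_) (fun p b hp => ?_)
    · rw [mG]
      omega
    · refine (hS.szb j p b hp).trans ?_
      have e1 := hmx j p.1 p.2
      have e2 : 20 * D j + 8 * (nsd (nd0 j) p.1 p.2).card ≤ mG nd0 D j p.1 := by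
        rw [mG]
        omega
      exact_mod_cast e2
  have hnd : ∀ j, (fun v => ext (em X j) (nd1 j) (Sum.inl v)) = nd0 j := by
    intro j
    funext v
    exact (hHst j).ndr v
  have hcl := fun j => hCLJ G Bk (H j) d (D j) bl op (bo j) Sum.inl ((Gh1 j).map (em X j))
    (ext (em X j) (nd1 j)) (A j) ζ aC gC t g t1 t2 t3 t4 t5 t6 Cs (hD24 j) (hS.Dd j).1 (hS.Dd j).2
    hζ ha haκ hgC hgC1 htκ hg hgκ hT (by
      have e : (1 + 2 * (1 : ℝ)) * MS = 3 * MS := by ring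
      rw [e]
      exact hCl) hQ (by rw [hnd j]; exact hS.blx j) (by rw [hnd j]; exact hS.shr j) (hgdx j)
  refine ⟨Σ j, X j, inferInstance, fun j => (Gh1 j).map (em X j), A,
    fun j => (A j).filter fun v => (nb ((Gh1 j).map (em X j)) v).card + 1 = D j,
    fun j => ext (em X j) (nd1 j), fun j v => (hHst j).ndr v, fun j i s => (hHst j).sz i s, ?_⟩
  refine cls_of (fun j => ?_) hHst ?_ hS.dis (fun j v h => hS.lgt8 j v (hndb j v h)) hbal hS.prc
    hS.Dd hS.Jc hrr hrd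
  · refine wld_of (hS.blx j) (hHst j) (hS.deg j) (hS.dex j) (hS.exc j) (hS.lgt j) hβ le_rfl hρ0
      (fun i => ?_) (hm j) (hcl j)
    rw [mG]
    omega
  · intro j j' v hv hj hj'
    obtain ⟨u, rfl, _⟩ := ext_ne _ _ hj
    obtain ⟨u', hu', _⟩ := ext_ne _ _ hj'
    rcases u with w | x
    · exact absurd rfl (hv w)
    · rcases u' with w' | x'
      · rw [em_inr, em_inl] at hu'
        exact absurd hu' Sum.inr_ne_inl
      · rw [em_inr, em_inr] at hu'
        exact congrArg Sigma.fst (Sum.inr.inj hu')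

end Pool.Agent.Work.MP_db9399_oxa.helper75
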