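import Pool.Agent.Work.MP_db9399_ox.Interface
import Pool.Agent.Work.MP_db9399_clj_helper75.CLJ

/-!
# MP_db9399, OXA: what OUTX needs from the typed splitting (helper75)

`W` = real vertices, `G` = all real edges (`d`-regular), `Bk` = bulk edges, `H j` = edges of the class
`j`. Blocks: `bl v = some b`, `bl v = none` exactly at the vertices of `O` (all edges of `O` are real).
Nodes of the class `j`: `nd0 j v = some (i, s)`; `bo j (i, s)` = block which contains the side `s` of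
the node `i`, `bo j (i, s) = none`: the node consists of dummies in this class. `pr i` = piece.
-/

set_option autoImplicit false

namespace Pool.Agent.Work.MP_db9399_oxa.helper75

open Finset Classical
open Pool.Agent.Work.MP_db9399_all (nb)
open Pool.Agent.Work.MP_db9399_sg
open Pool.Agent.Work.MP_db9399_ox
open Pool.Agent.Work.MP_db9399_clj.helper75

universe u

section Defs

variable {W B I I' J : Type u} [Fintype W] [Fintype B] [Fintype I] [Fintype I'] [Fintype J]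

/-- Output of the typed splitting, as the outside stage needs it. -/
structure SplO (G Bk : SimpleGraph W) (H : J → SimpleGraph W) (bl : W → Option B) (op : B → B)
    (nd0 : J → W → Option (I × Bool)) (bo : J → I × Bool → Option B) (pr : I → I')
    (Ex : J → Finset W) (d : ℕ) (D : J → ℕ)
    (MS β C CQ ρ0 c t1 t2 t3 t4 t5 t6 : ℝ) : Prop where
  blx : ∀ j, Blx G Bk (H j) d bl op (nd0 j) (bo j)
  shr : ∀ j, Shr G Bk (H j) d bl (nd0 j) (bo j) c t1 t2 t3 t4 t5 t6 MS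
  dis : ∀ j j' v w, j ≠ j' → (H j).Adj v w → ¬ (H j').Adj v w
  deg : ∀ j, ∀ x, bl x = none → x ∉ Ex j → (nb (H j) x).card = D j
  dex : ∀ j, ∀ x, bl x = none → (nb (H j) x).card ≤ D j ∧ D j ≤ (nb (H j) x).card + 1
  exc : ∀ j v, (((nb (H j) v).filter fun x => x ∈ Ex j).card : ℝ) ≤ ρ0 / 2 * D j
  lgt : ∀ j v, bl v ≠ none → ((nb (H j) v).card : ℝ) ≤ β * D j
  lgt8 : ∀ j v, bl v ≠ none → 8 * (nb (H j) v).card ≤ D j
  bal : ∀ j i, |sdg (H j) (nd0 j) i| ≤ ρ0 / 2 * D j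
  szn : ∀ j i s, ((nsd (nd0 j) i s).card : ℝ) ≤ CQ * D j
  szb : ∀ j p b, bo j p = some b →
    ((blk bl b).card : ℝ) ≤ 20 * D j + 8 * (nsd (nd0 j) p.1 p.2).card
  prc : ∀ i', (univ.filter fun i => pr i = i').card ≤ 2
  Dd : ∀ j, D j ≤ d ∧ (d : ℝ) ≤ C * D j
  Jc : (Fintype.card J : ℝ) ≤ C

/-- sizes of the sides of the gadgets -/
noncomputable def mG (nd0 : J → W → Option (I × Bool)) (D : J → ℕ) (j : J) (i : I) : ℕ :=
  20 * D j + 8 * max (nsd (nd0 j) i false).card (nsd (nd0 j) i true).card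

end Defs

/-- **OXA**: from the typed splitting (with HOST and CLJ) to the classes of OUTX. `Cs` = clusters
with `Clx` for `3 * MS`, `aC` their light threshold, `gC` their scale. -/
def Stmt_OXA : Prop :=
  ∀ MS δ C CQ c : ℝ, 1 ≤ MS → 0 < δ → 1 ≤ C → 1 ≤ CQ → 0 < c → c ≤ 1 →
    ∃ (κ : ℝ) (d0 : ℕ), 0 < κ ∧ κ ≤ 1 ∧
    ∀ {W B I I' J : Type u} [Fintype W] [Fintype B] [Fintype I] [Fintype I'] [Fintype J]
      (G Bk : SimpleGraph W) (H : J → SimpleGraph W) (bl : W → Option B) (op : B → B)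
      (nd0 : J → W → Option (I × Bool)) (bo : J → I × Bool → Option B) (pr : I → I')
      (Ex : J → Finset W) (d : ℕ) (D r : J → ℕ)
      (a β ρ0 t g t1 t2 t3 t4 t5 t6 ζ aC gC : ℝ) (Cs : Finset (Finset W)),
      d0 ≤ d → 0 ≤ β → 0 < ρ0 → ρ0 ≤ 1 → ζ ≤ 1 / 8 → 0 < aC → aC ≤ κ → 0 < gC → gC ≤ 1 →
      t ≤ κ * gC ^ 2 → 0 ≤ g → g ≤ κ * gC ^ 2 →
      SplO G Bk H bl op nd0 bo pr Ex d D MS β C CQ ρ0 c t1 t2 t3 t4 t5 t6 →
      Tls d c t t1 t2 t3 t4 t5 t6 →
      MP_db9399_xc.helper38.Clx G d (3 * MS) ζ aC gC Cs →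
      (∀ Q ∈ Cs, ((Q ∩ OO bl ∩ MP_db9399_xc.helper38.lgt G d aC Cs).card : ℝ) ≤ κ * d) →
      (∀ j, Odd (r j) ∧ 2 * (D j : ℝ) ^ (1 - a) ≤ r j ∧
        (r j : ℝ) + 2 ≤ (D j : ℝ) ^ (1 - a / 3)) →
      (∀ j, (d : ℝ) ^ (1 - a) ≤ r j) →
      ∃ (Y : Type u) (_ : Fintype Y) (Gh : J → SimpleGraph (W ⊕ Y)) (A Ex' : J → Finset (W ⊕ Y))
        (nd : J → W ⊕ Y → Option (I × Bool)),
        (∀ j v, nd j (Sum.inl v) = nd0 j v) ∧
        (∀ j i s, (nsd (nd j) i s).card = mG nd0 D j i) ∧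
        Cls (fun j => (H j).map Function.Embedding.inl) Gh ((OO bl).map Function.Embedding.inl)
          (univ.map Function.Embedding.inl) A Ex' nd pr d D r a MS g δ β (1 / 4) C (20 + 8 * CQ) ρ0

end Pool.Agent.Work.MP_db9399_oxa.helper75
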