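import Pool.Agent.Work.MP_db9399_oxa_helper75.One

/-!
# MP_db9399, OXA: all classes on one vertex set (helper75)
-/

set_option autoImplicit false
set_option linter.unusedSectionVars false

namespace Pool.Agent.Work.MP_db9399_oxa.helper75

open Finset Classical
open Pool.Agent.Work.MP_db9399_all (nb)
open Pool.Agent.Work.MP_db9399_cg (cdg)
open Pool.Agent.Work.MP_db9399_sg
open Pool.Agent.Work.MP_db9399_ox
open Pool.Agent.Work.MP_db9399_clj.helper75
open Pool.Agent.Work.MP_db9399_xc.helper38 (Clx lgt)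

universe u

section Gen

variable {V1 V W I : Type u} [Fintype V1] [Fintype V] [Fintype W] [Fintype I] {α : Type u}

/-- extension by `none` -/
noncomputable def ext (e : V1 ↪ V) (f : V1 → Option α) (v : V) : Option α :=
  if h : ∃ u, e u = v then f h.choose else none

theorem ext_apply (e : V1 ↪ V) (f : V1 → Option α) (u : V1) : ext e f (e u) = f u := by
  have h : ∃ u', e u' = e u := ⟨u, rfl⟩
  rw [ext, dif_pos h]
  rw [e.injective h.choose_spec]

theorem ext_ne (e : V1 ↪ V) (f : V1 → Option α) {v : V} (h : ext e f v ≠ none) :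
    ∃ u, v = e u ∧ f u ≠ none := by
  by_cases h1 : ∃ u, e u = v
  · obtain ⟨u, rfl⟩ := h1
    rw [ext_apply] at h
    exact ⟨u, rfl, h⟩
  · rw [ext, dif_neg h1] at h
    exact absurd rfl h

theorem ext_some (e : V1 ↪ V) (f : V1 → Option α) {v : V} {p : α} (h : ext e f v = some p) :
    ∃ u, v = e u ∧ f u = some p := by
  obtain ⟨u, rfl, _⟩ := ext_ne e f (v := v) (by rw [h]; exact Option.some_ne_none _)
  rw [ext_apply] at h
  exact ⟨u, rfl, h⟩

theorem nb_map (e : V1 ↪ V) (G : SimpleGraph V1) (u : V1) :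
    nb (G.map e) (e u) = (nb G u).map e := by
  ext x
  rw [mem_nb, mem_map, SimpleGraph.map_adj]
  constructor
  · rintro ⟨v', w', h, h2, rfl⟩
    rw [e.injective h2] at h
    exact ⟨w', mem_nb.2 h, rfl⟩
  · rintro ⟨w', hw', rfl⟩
    exact ⟨u, w', mem_nb.1 hw', rfl, rfl⟩

theorem card_nb_map (e : V1 ↪ V) (G : SimpleGraph V1) (u : V1) :
    (nb (G.map e) (e u)).card = (nb G u).card := by
  rw [nb_map, card_map]

theorem nb_map_out (e : V1 ↪ V) (G : SimpleGraph V1) {v : V} (hv : ∀ u, v ≠ e u) :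
    nb (G.map e) v = ∅ := by
  rw [eq_empty_iff_forall_notMem]
  intro x hx
  rw [mem_nb, SimpleGraph.map_adj] at hx
  obtain ⟨v', w', _, h2, _⟩ := hx
  exact hv v' h2.symm

theorem nsd_ext (e : V1 ↪ V) (nd : V1 → Option (I × Bool)) (i : I) (s : Bool) :
    nsd (ext e nd) i s = (nsd nd i s).map e := by
  ext x
  rw [mem_nsd, mem_map]
  constructor
  · intro h
    obtain ⟨u, rfl, hu⟩ := ext_some e nd h
    exact ⟨u, mem_nsd.2 hu, rfl⟩
  · rintro ⟨u, hu, rfl⟩
    rw [ext_apply]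
    exact mem_nsd.1 hu

theorem mem_nod {nd : V → Option (I × Bool)} {i : I} {v : V} :
    v ∈ nod nd i ↔ ∃ s, nd v = some (i, s) := by
  rw [nod, mem_filter]
  exact ⟨fun h => h.2, fun h => ⟨mem_univ _, h⟩⟩

theorem cdg_map (e : V1 ↪ V) (G : SimpleGraph V1) (u w : V1) :
    cdg G u w ≤ cdg (G.map e) (e u) (e w) := by
  rw [cdg, cdg]
  refine Nat.cast_le.2 ?_
  refine card_le_card_of_injOn e ?_ e.injective.injOn
  intro y hy
  have hy' := mem_inter.1 hy
  refine mem_inter.2 ⟨mem_nb.2 ?_, mem_nb.2 ?_⟩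
  · exact (SimpleGraph.map_adj _ _ _ _).2 ⟨u, y, mem_nb.1 hy'.1, rfl, rfl⟩
  · exact (SimpleGraph.map_adj _ _ _ _).2 ⟨w, y, mem_nb.1 hy'.2, rfl, rfl⟩

/-- the real vertices of a side -/
theorem nsd_real {ι : W ↪ V} {nd : V → Option (I × Bool)} {nd0 : W → Option (I × Bool)}
    (h : ∀ v, nd (ι v) = nd0 v) (i : I) (s : Bool) :
    nsd nd i s ∩ univ.map ι = (nsd nd0 i s).map ι := by
  ext x
  rw [mem_inter, mem_nsd, mem_map, mem_map]
  constructor
  · rintro ⟨h1, w, _, rfl⟩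
    rw [h] at h1
    exact ⟨w, mem_nsd.2 h1, rfl⟩
  · rintro ⟨w, hw, rfl⟩
    rw [h]
    exact ⟨mem_nsd.1 hw, w, mem_univ _, rfl⟩

theorem card_nsd_real {ι : W ↪ V} {nd : V → Option (I × Bool)} {nd0 : W → Option (I × Bool)}
    (h : ∀ v, nd (ι v) = nd0 v) (i : I) (s : Bool) :
    (nsd nd i s ∩ univ.map ι).card = (nsd nd0 i s).card := by
  rw [nsd_real h, card_map]

theorem sum_nsd_map {ι : W ↪ V} {nd : V → Option (I × Bool)} {nd0 : W → Option (I × Bool)}
    (h : ∀ v, nd (ι v) = nd0 v) (H : SimpleGraph W) (i : I) (s : Bool) :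
    ∑ v ∈ nsd nd i s, ((nb (H.map ι) v).card : ℝ) = ∑ v ∈ nsd nd0 i s, ((nb H v).card : ℝ) := by
  have h1 : (nsd nd0 i s).map ι ⊆ nsd nd i s := by
    intro x hx
    obtain ⟨w, hw, rfl⟩ := mem_map.1 hx
    rw [mem_nsd, h]
    exact mem_nsd.1 hw
  rw [← sum_subset h1, sum_map]
  · exact sum_congr rfl fun w _ => by rw [card_nb_map]
  · intro x hx hn
    rw [nb_map_out, card_empty, Nat.cast_zero]
    rintro w rfl
    apply hn
    rw [mem_nsd, h] at hx
    exact mem_map.2 ⟨w, mem_nsd.2 hx, rfl⟩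

theorem sdg_map {ι : W ↪ V} {nd : V → Option (I × Bool)} {nd0 : W → Option (I × Bool)}
    (h : ∀ v, nd (ι v) = nd0 v) (H : SimpleGraph W) (i : I) :
    sdg (H.map ι) nd i = sdg H nd0 i := by
  rw [sdg, sdg, sum_nsd_map h, sum_nsd_map h]

end Gen

section Glue

variable {W B I J : Type u} [Fintype W] [Fintype B] [Fintype I] [Fintype J]

/-- embedding of one class -/
def em (X : J → Type u) (j : J) : W ⊕ X j ↪ W ⊕ (Σ j, X j) :=
  ⟨Sum.map id (Sigma.mk j), Sum.map_injective.2 ⟨Function.injective_id, sigma_mk_injective⟩⟩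

theorem em_inl (X : J → Type u) (j : J) (w : W) : em X j (Sum.inl w) = Sum.inl w := rfl

theorem em_inr (X : J → Type u) (j : J) (x : X j) :
    em (W := W) X j (Sum.inr x) = Sum.inr ⟨j, x⟩ := rfl

/-- HOST for one class gives `Hst` on the common vertex set. -/
theorem hst_glue (X : J → Type u) [∀ j, Fintype (X j)] (j : J) (H : SimpleGraph W)
    (bl : W → Option B) (nd0 : W → Option (I × Bool)) (Gh : SimpleGraph (W ⊕ X j))
    (nd : W ⊕ X j → Option (I × Bool)) (D : ℕ) (m : I → ℕ) (c0 e : ℝ)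
    (A : Finset (W ⊕ (Σ j, X j)))
    (h1 : ∀ v w, Gh.Adj (Sum.inl v) (Sum.inl w) ↔ H.Adj v w)
    (h2 : ∀ v, nd (Sum.inl v) = nd0 v)
    (h4 : ∀ i s, (nsd nd i s).card = m i)
    (h5 : ∀ v x, Gh.Adj v (Sum.inr x) → ∃ i s, nd v = some (i, s) ∧ nd (Sum.inr x) = some (i, !s))
    (h6 : ∀ v, nd0 v ≠ none → (nb Gh (Sum.inl v)).card = D)
    (h7 : ∀ x, (nb Gh (Sum.inr x)).card ≤ D ∧ D ≤ (nb Gh (Sum.inr x)).card + 1)
    (h8 : ∀ i, (((nod nd i).filter fun v => (nb Gh v).card + 1 = D).card : ℝ) ≤ e)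
    (h9 : ∀ i s, ∀ u ∈ nsd nd i s, ∀ w ∈ nsd nd i s, c0 * D ≤ cdg Gh u w)
    (hA : ∀ v, v ∈ A ↔ ext (em X j) nd v ≠ none ∨ ∃ w, v = Sum.inl w ∧ bl w = none) :
    Hst Function.Embedding.inl H bl nd0 (Gh.map (em X j)) (ext (em X j) nd) A D m c0 e where
  real := by
    intro v w
    rw [SimpleGraph.map_adj]
    constructor
    · rintro ⟨v', w', h, e1, e2⟩
      have e3 : v' = Sum.inl v := (em X j).injective e1
      have e4 : w' = Sum.inl w := (em X j).injective e2
      rw [e3, e4] at h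
      exact (h1 v w).1 h
    · intro h
      exact ⟨Sum.inl v, Sum.inl w, (h1 v w).2 h, rfl, rfl⟩
  gad := by
    intro v x hx h
    rw [SimpleGraph.map_adj] at h
    obtain ⟨v', x', h, rfl, rfl⟩ := h
    rcases x' with w | x'
    · exact absurd rfl (hx w)
    · obtain ⟨i, s, g1, g2⟩ := h5 _ _ h
      refine ⟨i, s, ?_, ?_⟩
      · rw [ext_apply]
        exact g1
      · rw [ext_apply]
        exact g2
  ndr := by
    intro v
    have := ext_apply (em X j) nd (Sum.inl v)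
    rw [← h2, ← this]
    rfl
  mA := hA
  sz := by
    intro i s
    rw [nsd_ext, card_map]
    exact h4 i s
  dl := by
    intro v hv
    have := card_nb_map (em X j) Gh (Sum.inl v)
    rw [h6 v hv] at this
    exact this
  dd := by
    intro x hx hn
    obtain ⟨u, rfl, _⟩ := ext_ne _ _ hn
    rcases u with w | x'
    · exact absurd rfl (hx w)
    · rw [card_nb_map]
      exact h7 x'
  cnt := by
    intro i
    refine le_trans (Nat.cast_le.2 ?_) (h8 i)
    rw [← card_map (em X j) (s := (nod nd i).filter fun v => (nb Gh v).card + 1 = D)]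
    refine card_le_card fun x hx => ?_
    rw [mem_filter, mem_nod] at hx
    obtain ⟨⟨s, hs⟩, hx2⟩ := hx
    obtain ⟨u, rfl, hu⟩ := ext_some _ _ hs
    rw [card_nb_map] at hx2
    exact mem_map.2 ⟨u, mem_filter.2 ⟨mem_nod.2 ⟨s, hu⟩, hx2⟩, rfl⟩
  cod := by
    intro i s u hu w hw
    rw [nsd_ext, mem_map] at hu hw
    obtain ⟨u', hu', rfl⟩ := hu
    obtain ⟨w', hw', rfl⟩ := hw
    exact (h9 i s u' hu' w' hw').trans (cdg_map _ _ _ _)

end Glue

end Pool.Agent.Work.MP_db9399_oxa.helper75
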