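import Pool.Agent.Work.MP_db9399_oxa_helper75.Defs

/-!
# MP_db9399, OXA: one class (helper75)
-/

set_option autoImplicit false
set_option linter.unusedSectionVars false

namespace Pool.Agent.Work.MP_db9399_oxa.helper75

open Finset Classical
open Pool.Agent.Work.MP_db9399_all (nb)
open Pool.Agent.Work.MP_db9399_cg (cdg)
open Pool.Agent.Work.MP_db9399_sg
open Pool.Agent.Work.MP_db9399_ox
open Pool.Agent.Work.MP_db9399_clj.helper75
open Pool.Agent.Work.MP_db9399_xc.helper38 (Clx lgt)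

universe u

section One

variable {W B I V : Type u} [Fintype W] [Fintype B] [Fintype I] [Fintype V]

/-- The gadgets of one class: facts from HOST. -/
structure Hst (ι : W ↪ V) (H : SimpleGraph W) (bl : W → Option B) (nd0 : W → Option (I × Bool))
    (Gh : SimpleGraph V) (nd : V → Option (I × Bool)) (A : Finset V) (D : ℕ) (m : I → ℕ)
    (c0 e : ℝ) : Prop where
  real : ∀ v w, Gh.Adj (ι v) (ι w) ↔ H.Adj v w
  gad : ∀ v x, (∀ w, x ≠ ι w) → Gh.Adj v x → ∃ i s, nd v = some (i, s) ∧ nd x = some (i, !s)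
  ndr : ∀ v, nd (ι v) = nd0 v
  mA : ∀ v, v ∈ A ↔ nd v ≠ none ∨ ∃ w, v = ι w ∧ bl w = none
  sz : ∀ i s, (nsd nd i s).card = m i
  dl : ∀ v, nd0 v ≠ none → (nb Gh (ι v)).card = D
  dd : ∀ x, (∀ w, x ≠ ι w) → nd x ≠ none → (nb Gh x).card ≤ D ∧ D ≤ (nb Gh x).card + 1
  cnt : ∀ i, (((nod nd i).filter fun v => (nb Gh v).card + 1 = D).card : ℝ) ≤ e
  cod : ∀ i s, ∀ u ∈ nsd nd i s, ∀ w ∈ nsd nd i s, c0 * D ≤ cdg Gh u w

variable {G Bk H : SimpleGraph W} {d D : ℕ} {bl : W → Option B} {op : B → B}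
  {nd0 : W → Option (I × Bool)} {bo : I × Bool → Option B} {ι : W ↪ V} {Gh : SimpleGraph V}
  {nd : V → Option (I × Bool)} {A : Finset V} {m : I → ℕ} {c0 e β : ℝ}

/-- neighbours of a vertex of `O` -/
theorem nbO (hB : Blx G Bk H d bl op nd0 bo) (hH : Hst ι H bl nd0 Gh nd A D m c0 e) {v : W}
    (hv : bl v = none) : nb Gh (ι v) = (nb H v).map ι := by
  ext x
  rw [mem_nb, mem_map]
  constructor
  · intro h
    by_cases hx : ∃ w, x = ι w
    · obtain ⟨w, rfl⟩ := hx
      exact ⟨w, mem_nb.2 ((hH.real v w).1 h), rfl⟩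
    · exfalso
      obtain ⟨i, s, h1, _⟩ := hH.gad _ x (fun w hw => hx ⟨w, hw⟩) h
      rw [hH.ndr] at h1
      exact nd_notO hB h1 (mem_OO.2 hv)
  · rintro ⟨w, hw, rfl⟩
    exact (hH.real v w).2 (mem_nb.1 hw)

theorem nb_none (hB : Blx G Bk H d bl op nd0 bo) (hH : Hst ι H bl nd0 Gh nd A D m c0 e) {v w : V}
    (h : Gh.Adj v w) : v ∈ A := by
  rw [hH.mA]
  by_cases hw : ∃ w', w = ι w'
  · obtain ⟨w', rfl⟩ := hw
    by_cases hv : ∃ v', v = ι v'
    · obtain ⟨v', rfl⟩ := hv
      rcases hB.Ha v' w' ((hH.real v' w').1 h) with h1 | h1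
      · exact Or.inr ⟨v', rfl, h1⟩
      · left
        rw [hH.ndr]
        exact h1
    · obtain ⟨i, s, _, h1⟩ := hH.gad _ v (fun w hw => hv ⟨w, hw⟩) h.symm
      left
      rw [h1]
      exact Option.some_ne_none _
  · obtain ⟨i, s, h1, _⟩ := hH.gad _ w (fun w' hw' => hw ⟨w', hw'⟩) h
    left
    rw [h1]
    exact Option.some_ne_none _

/-- degrees -/
theorem dexA (hB : Blx G Bk H d bl op nd0 bo) (hH : Hst ι H bl nd0 Gh nd A D m c0 e)
    (hdex : ∀ x, bl x = none → (nb H x).card ≤ D ∧ D ≤ (nb H x).card + 1) :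
    ∀ v ∈ A, (nb Gh v).card ≤ D ∧ D ≤ (nb Gh v).card + 1 := by
  intro v hv
  by_cases hr : ∃ w, v = ι w
  · obtain ⟨w, rfl⟩ := hr
    by_cases hO : bl w = none
    · rw [nbO hB hH hO, card_map]
      exact hdex w hO
    · have h1 : nd0 w ≠ none := by
        rcases (hH.mA _).1 hv with h | ⟨w', h, hw'⟩
        · rwa [hH.ndr] at h
        · rw [← ι.injective h] at hw'
          exact absurd hw' hO
      rw [hH.dl w h1]
      omega
  · have h1 : nd v ≠ none := by
      rcases (hH.mA _).1 hv with h | ⟨w', h, _⟩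
      · exact h
      · exact absurd ⟨w', h⟩ hr
    exact hH.dd v (fun w h => hr ⟨w, h⟩) h1

/-- the structure used by CLJ -/
theorem gdx_of (hB : Blx G Bk H d bl op nd0 bo) (hH : Hst ι H bl nd0 Gh nd A D m c0 e)
    (hdex : ∀ x, bl x = none → (nb H x).card ≤ D ∧ D ≤ (nb H x).card + 1)
    (hlgt : ∀ v, bl v ≠ none → 8 * (nb H v).card ≤ D) (h8 : ∀ i, 8 * D ≤ m i)
    (hszb : ∀ p b, bo p = some b → ((blk bl b).card : ℝ) ≤ m p.1) :
    Gdx ι H bl bo Gh nd A D 1 c0 where
  inj := ι.injective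
  real := hH.real
  act := by
    intro v hv hn
    rcases (hH.mA _).1 hv with h | h
    · exact absurd hn h
    · exact h
  sup := fun v w h => nb_none hB hH h
  gad := hH.gad
  deg := dexA hB hH hdex
  ndA := fun v h => (hH.mA v).2 (Or.inl h)
  lgt := hlgt
  sz1 := fun i s => by rw [hH.sz]; exact h8 i
  sz3 := fun p b hp => by rw [one_mul, hH.sz]; exact hszb p b hp
  cod := hH.cod

/-- **One class.** -/
theorem wld_of {MS δ g ρ0 C' : ℝ} {Ex : Finset W}
    (hB : Blx G Bk H d bl op nd0 bo) (hH : Hst ι H bl nd0 Gh nd A D m c0 e)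
    (hdeg : ∀ x, bl x = none → x ∉ Ex → (nb H x).card = D)
    (hdex : ∀ x, bl x = none → (nb H x).card ≤ D ∧ D ≤ (nb H x).card + 1)
    (hexc : ∀ v, (((nb H v).filter fun x => x ∈ Ex).card : ℝ) ≤ ρ0 / 2 * D)
    (hlgt : ∀ v, bl v ≠ none → ((nb H v).card : ℝ) ≤ β * D) (hβ : 0 ≤ β)
    (he : e ≤ ρ0 / 2 * D) (hρ0 : 0 < ρ0) (h8 : ∀ i, 8 * D ≤ m i)
    (hC' : ∀ i, (m i : ℝ) ≤ C' * D)
    (hcl : (∀ T : Finset V, T ⊆ A → (T.card : ℝ) ≤ 1 / 4 * D → 1 / 4 * (T.card : ℝ) ≤ cut2 Gh D T) ∧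
      ∀ T : Finset V, T ⊆ A → (T.card : ℝ) ≤ MS * D → cut2 Gh D T ≤ g * D →
        ((T.filter fun v => nd v = none).card : ℝ) ≤ δ * D) :
    Wld (H.map ι) Gh ((OO bl).map ι) A (A.filter fun v => (nb Gh v).card + 1 = D) nd D
      MS g δ β (1 / 4) C' ρ0 := by
  have hmO : ∀ v, v ∈ (OO bl).map ι ↔ ∃ w, v = ι w ∧ bl w = none := by
    intro v
    rw [mem_map]
    constructor
    · rintro ⟨w, hw, rfl⟩
      exact ⟨w, rfl, mem_OO.1 hw⟩
    · rintro ⟨w, rfl, hw⟩
      exact ⟨w, mem_OO.2 hw, rfl⟩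
  have hOA : (OO bl).map ι ⊆ A := fun v hv => (hH.mA v).2 (Or.inr ((hmO v).1 hv))
  have hcov : ∀ v ∈ A, v ∈ (OO bl).map ι ↔ nd v = none := by
    intro v hv
    constructor
    · intro h
      obtain ⟨w, rfl, hw⟩ := (hmO v).1 h
      rw [hH.ndr]
      by_contra hn
      obtain ⟨p, hp⟩ := Option.ne_none_iff_exists'.1 hn
      exact nd_notO hB hp (mem_OO.2 hw)
    · intro h
      rw [hmO]
      rcases (hH.mA _).1 hv with h1 | h1
      · exact absurd h h1
      · exact h1
  have hda := dexA hB hH hdex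
  refine ⟨?_, hOA, fun v h => (hH.mA v).2 (Or.inl h), hcov, fun v w h => nb_none hB hH h, ?_, ?_,
    hda, ?_, ?_, ?_, ?_, ?_, hcl.1, ?_⟩
  · intro v w h
    rw [SimpleGraph.map_adj] at h
    obtain ⟨v', w', h1, rfl, rfl⟩ := h
    exact (hH.real v' w').2 h1
  · intro v w h hn
    by_cases hw : ∃ w', w = ι w'
    · obtain ⟨w', rfl⟩ := hw
      by_cases hv : ∃ v', v = ι v'
      · obtain ⟨v', rfl⟩ := hv
        exfalso
        apply hn
        rw [SimpleGraph.map_adj]
        exact ⟨v', w', (hH.real v' w').1 h, rfl, rfl⟩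
      · obtain ⟨i, s, h1, h2⟩ := hH.gad _ v (fun w hw => hv ⟨w, hw⟩) h.symm
        exact ⟨i, !s, h2, by rw [h1, Bool.not_not]⟩
    · exact hH.gad _ w (fun w' hw' => hw ⟨w', hw'⟩) h
  · intro v hv hx
    have h1 := hda v hv
    have h2 : ¬ (nb Gh v).card + 1 = D := fun h => hx (mem_filter.2 ⟨hv, h⟩)
    omega
  · -- exc
    intro v
    have hsplit : ∀ x ∈ nb Gh v ∩ A.filter (fun v => (nb Gh v).card + 1 = D),
        (∃ w, x = ι w ∧ w ∈ Ex ∧ ∃ v', v = ι v' ∧ H.Adj v' w) ∨
        (∃ i s, nd v = some (i, s) ∧ x ∈ (nod nd i).filter fun v => (nb Gh v).card + 1 = D) := by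
      intro x hx
      rw [mem_inter, mem_nb, mem_filter] at hx
      obtain ⟨hx1, hx2, hx3⟩ := hx
      by_cases hr : ∃ w, x = ι w
      · obtain ⟨w, rfl⟩ := hr
        have hbw : bl w = none := by
          by_contra hn
          have h1 : nd0 w ≠ none := by
            rcases (hH.mA _).1 hx2 with h | ⟨w', h, hw'⟩
            · rwa [hH.ndr] at h
            · rw [← ι.injective h] at hw'
              exact absurd hw' hn
          have h2 := hH.dl w h1
          omega
        left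
        refine ⟨w, rfl, ?_, ?_⟩
        · by_contra hn
          have h1 := hdeg w hbw hn
          rw [nbO hB hH hbw, card_map] at hx3
          omega
        · by_cases hv : ∃ v', v = ι v'
          · obtain ⟨v', rfl⟩ := hv
            exact ⟨v', rfl, (hH.real v' w).1 hx1⟩
          · exfalso
            obtain ⟨i, s, h1, _⟩ := hH.gad _ v (fun w hw => hv ⟨w, hw⟩) hx1.symm
            rw [hH.ndr] at h1
            exact nd_notO hB h1 (mem_OO.2 hbw)
      · obtain ⟨i, s, h1, h2⟩ := hH.gad _ x (fun w' hw' => hr ⟨w', hw'⟩) hx1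
        right
        refine ⟨i, s, h1, mem_filter.2 ⟨?_, hx3⟩⟩
        exact mem_filter.2 ⟨mem_univ _, !s, h2⟩
    have hD0 : (0 : ℝ) ≤ ρ0 / 2 * D := by positivity
    have hA1 : ∃ Z1 Z2 : Finset V, nb Gh v ∩ A.filter (fun v => (nb Gh v).card + 1 = D) ⊆ Z1 ∪ Z2 ∧
        (Z1.card : ℝ) ≤ ρ0 / 2 * D ∧ (Z2.card : ℝ) ≤ ρ0 / 2 * D := by
      refine ⟨univ.filter fun x => ∃ w, x = ι w ∧ w ∈ Ex ∧ ∃ v', v = ι v' ∧ H.Adj v' w,
        univ.filter fun x => ∃ i s, nd v = some (i, s) ∧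
          x ∈ (nod nd i).filter fun v => (nb Gh v).card + 1 = D, ?_, ?_, ?_⟩
      · intro x hx
        rcases hsplit x hx with h | h
        · exact mem_union_left _ (mem_filter.2 ⟨mem_univ _, h⟩)
        · exact mem_union_right _ (mem_filter.2 ⟨mem_univ _, h⟩)
      · by_cases hv : ∃ v', v = ι v'
        · obtain ⟨v', rfl⟩ := hv
          refine le_trans (Nat.cast_le.2 ?_) (hexc v')
          rw [← card_map ι (s := (nb H v').filter fun x => x ∈ Ex)]
          refine card_le_card fun x hx => ?_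
          obtain ⟨w, rfl, hw, v'', h1, h2⟩ := (mem_filter.1 hx).2
          rw [← ι.injective h1] at h2
          exact mem_map.2 ⟨w, mem_filter.2 ⟨mem_nb.2 h2, hw⟩, rfl⟩
        · have : (univ.filter fun x => ∃ w, x = ι w ∧ w ∈ Ex ∧ ∃ v', v = ι v' ∧ H.Adj v' w) =
              (∅ : Finset V) := by
            rw [eq_empty_iff_forall_notMem]
            intro x hx
            obtain ⟨w, _, _, v', h1, _⟩ := (mem_filter.1 hx).2
            exact hv ⟨v', h1⟩
          rw [this, card_empty, Nat.cast_zero]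
          exact hD0
      · rcases hn : nd v with _ | p
        · have : (univ.filter fun x => ∃ i s, (none : Option (I × Bool)) = some (i, s) ∧
              x ∈ (nod nd i).filter fun v => (nb Gh v).card + 1 = D) = (∅ : Finset V) := by
            rw [eq_empty_iff_forall_notMem]
            intro x hx
            obtain ⟨i, s, h1, _⟩ := (mem_filter.1 hx).2
            exact absurd h1.symm (Option.some_ne_none _)
          rw [this, card_empty, Nat.cast_zero]
          exact hD0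
        · refine le_trans (Nat.cast_le.2 (card_le_card ?_)) ((hH.cnt p.1).trans he)
          intro x hx
          obtain ⟨i, s, h1, h2⟩ := (mem_filter.1 hx).2
          have h3 := Option.some.inj h1
          rw [h3]
          exact h2
    obtain ⟨Z1, Z2, h1, h2, h3⟩ := hA1
    have h4 : ((nb Gh v ∩ A.filter (fun v => (nb Gh v).card + 1 = D)).card : ℝ) ≤
        Z1.card + Z2.card := by
      exact_mod_cast (card_le_card h1).trans (card_union_le _ _)
    linarith
  · -- lgt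
    intro v hv
    by_cases hr : ∃ w, v = ι w
    · obtain ⟨w, rfl⟩ := hr
      have h1 : nb (H.map ι) (ι w) = (nb H w).map ι := by
        ext x
        rw [mem_nb, mem_map, SimpleGraph.map_adj]
        constructor
        · rintro ⟨v', w', h, h2, rfl⟩
          rw [ι.injective h2] at h
          exact ⟨w', mem_nb.2 h, rfl⟩
        · rintro ⟨w', hw', rfl⟩
          exact ⟨w, w', mem_nb.1 hw', rfl, rfl⟩
      rw [h1, card_map]
      refine hlgt w fun h => hv ((hmO _).2 ⟨w, rfl, h⟩)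
    · have h1 : nb (H.map ι) v = ∅ := by
        rw [eq_empty_iff_forall_notMem]
        intro x hx
        rw [mem_nb, SimpleGraph.map_adj] at hx
        obtain ⟨v', w', _, h2, _⟩ := hx
        exact hr ⟨v', h2.symm⟩
      rw [h1, card_empty, Nat.cast_zero]
      positivity
  · intro i
    rw [hH.sz, hH.sz]
  · intro i s
    rw [hH.sz]
    exact h8 i
  · intro i s
    rw [hH.sz]
    exact hC' i
  · intro T hT h1 h2
    refine le_trans (Nat.cast_le.2 (card_le_card ?_)) (hcl.2 T hT h1 h2)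
    intro x hx
    rw [mem_inter] at hx
    exact mem_filter.2 ⟨hx.1, (hcov x (hT hx.1)).1 hx.2⟩

end One

end Pool.Agent.Work.MP_db9399_oxa.helper75
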